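import Pool.Agent.MP_ea150c_mp.H49.SpecG

/-! The charts of a model. -/

namespace Pool.Agent.MP_ea150c_mp.H39

open Pool.Agent.MP_ea150c_mp.H49

section General
variable {Λ σ σ' I Γ : Type} [CommRing Λ] [Fintype σ] [DecidableEq σ] [Fintype σ']
  [DecidableEq σ'] [AddCommGroup Γ] {tor : σ → Bool} {tor' : σ' → Bool} {cv : I → σ}
  {cv' : I → σ'} {wt : σ → Γ} {wt' : σ' → Γ} {J : Finset I}

omit [Fintype σ] in
lemma tXi_zero {i : σ} (h : tor i = false) : tXi tor Λ i = 0 := by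
  unfold tXi monoZ
  rw [dif_neg]
  intro hm
  have := hm i h
  simp at this

lemma tXi_mem {i : σ} (h : ∀ v, v ∉ J → cv v ≠ i) : tXi tor Λ i ∈ Tp tor cv wt Λ J (-wt i) := by
  classical
  unfold tXi monoZ
  split_ifs with hm
  · intro u hu
    rw [AddMonoidAlgebra.coeff_single, Finsupp.single_apply] at hu
    have e : (⟨_, hm⟩ : Mon tor) = u := by by_contra k; exact hu (if_neg k)
    subst e
    exact ⟨fun v hv => by simp [h v hv], by simp [Pi.single_apply, ite_smul]⟩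
  · exact zero_mem _

lemma Tp_one (s1 : S1) : 1 ∈ Tp tor cv wt Λ J 0 :=
  ((s1 Λ σ tor).2.2.2.2.2.2.2.2 I Γ cv wt J).1

lemma Tp_tX (s1 : S1) (i : σ) : tX tor Λ i ∈ Tp tor cv wt Λ J (wt i) :=
  ((s1 Λ σ tor).2.2.2.2.2.2.2.2 I Γ cv wt J).2.1 i

lemma Tp_mul (s1 : S1) {w w' w'' : Γ} {a b : Tor Λ tor} (ha : a ∈ Tp tor cv wt Λ J w)
    (hb : b ∈ Tp tor cv wt Λ J w') (e : w + w' = w'') : a * b ∈ Tp tor cv wt Λ J w'' :=
  e ▸ ((s1 Λ σ tor).2.2.2.2.2.2.2.2 I Γ cv wt J).2.2.1 w w' a b ha hb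

lemma Tp_pow (s1 : S1) {w : Γ} {a : Tor Λ tor} (ha : a ∈ Tp tor cv wt Λ J w) (n : ℕ) :
    a ^ n ∈ Tp tor cv wt Λ J (n • w) := by
  induction n with
  | zero => simpa using Tp_one s1
  | succ n ih => rw [pow_succ]; exact Tp_mul s1 ih ha (succ_nsmul w n).symm

lemma Tp_prod (s1 : S1) {κ : Type} (s : Finset κ) {w : κ → Γ} {a : κ → Tor Λ tor}
    (ha : ∀ x, a x ∈ Tp tor cv wt Λ J (w x)) :
    ∏ x ∈ s, a x ∈ Tp tor cv wt Λ J (∑ x ∈ s, w x) := by
  classical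
  induction s using Finset.induction_on with
  | empty => simpa using Tp_one s1
  | insert x s hx ih =>
    rw [Finset.prod_insert hx]
    exact Tp_mul s1 (ha x) ih (Finset.sum_insert hx).symm

lemma Tp_map (s1 : S1) (f : Tor Λ tor →ₐ[Λ] Tor Λ tor')
    (h1 : ∀ x, f (tX tor Λ x) ∈ Tp tor' cv' wt' Λ J (wt x))
    (h2 : ∀ x, tor x = true → (∀ v, v ∉ J → cv v ≠ x) →
      f (tXi tor Λ x) ∈ Tp tor' cv' wt' Λ J (-wt x))
    {w : Γ} {z : Tor Λ tor} (hz : z ∈ Tp tor cv wt Λ J w) : f z ∈ Tp tor' cv' wt' Λ J w := by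
  rw [← AddMonoidAlgebra.sum_coeff_single z, Finsupp.sum, map_sum]
  refine sum_mem fun u hu => ?_
  obtain ⟨h3, h4⟩ := hz u (Finsupp.mem_support_iff.1 hu)
  have e : (AddMonoidAlgebra.single u (z.coeff u) : Tor Λ tor) =
      z.coeff u • AddMonoidAlgebra.single u 1 := by simp
  rw [e, map_smul, mono_eq_prod, map_prod, ← h4]
  refine Submodule.smul_mem _ _ (Tp_prod s1 _ fun x => ?_)
  rw [map_mul, map_pow, map_pow]
  rcases le_or_gt 0 (u.1 x) with k | k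
  · rw [show (-u.1 x).toNat = 0 by omega, pow_zero, mul_one, ← Int.toNat_of_nonneg k,
      natCast_zsmul, Int.toNat_natCast]
    exact Tp_pow s1 (h1 x) _
  · have ht : tor x = true := by
      by_contra l
      exact absurd (u.2 x (by simpa using l)) (not_le.2 k)
    have l := Tp_pow s1 (h2 x ht fun v hv l => absurd (l ▸ h3 v hv) (not_le.2 k)) (-u.1 x).toNat
    rw [← natCast_zsmul, Int.toNat_of_nonneg (by omega), neg_smul_neg] at l
    rwa [show (u.1 x).toNat = 0 by omega, pow_zero, one_mul]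

lemma ofPoly_mem (s1 : S1) {f : MvPolynomial σ ℤ} {w : Γ}
    (h : ∀ m ∈ f.support, ∑ x, (m x : ℤ) • wt x = w) : ofPoly tor Λ f ∈ Tp tor cv wt Λ J w := by
  rw [ofPoly, MvPolynomial.coe_eval₂Hom, MvPolynomial.eval₂_eq']
  refine sum_mem fun m hm => ?_
  rw [eq_intCast, ← zsmul_eq_mul, ← h m hm]
  refine zsmul_mem (Tp_prod s1 _ fun x => ?_) _
  rw [natCast_zsmul]
  exact Tp_pow s1 (Tp_tX s1 x) _

omit [Fintype σ'] [DecidableEq σ'] in
lemma tmap_comm (s1 : S1) {Λ' : Type} [CommRing Λ'] (g : Λ →+* Λ')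
    (f : Tor Λ tor →ₐ[Λ] Tor Λ tor') (f' : Tor Λ' tor →ₐ[Λ'] Tor Λ' tor')
    (h1 : ∀ x, tmap tor' g (f (tX tor Λ x)) = f' (tX tor Λ' x))
    (h2 : ∀ x, tor x = true → tmap tor' g (f (tXi tor Λ x)) = f' (tXi tor Λ' x))
    (z : Tor Λ tor) : tmap tor' g (f z) = f' (tmap tor g z) := by
  have h3 : ∀ x, tmap tor' g (f (tXi tor Λ x)) = f' (tXi tor Λ' x) := fun x => by
    cases ht : tor x
    · simp [tXi_zero ht]
    · exact h2 x ht
  obtain ⟨k1, k2, -⟩ := (s1 Λ σ tor).2.2.2.2.2.2.2.1 Λ' g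
  induction z using AddMonoidAlgebra.induction_linear with
  | zero => simp
  | add a b ha hb => simp only [map_add, ha, hb]
  | single u c =>
    have e : (AddMonoidAlgebra.single u c : Tor Λ tor) =
        algebraMap Λ _ c * AddMonoidAlgebra.single u 1 := by rw [← Algebra.smul_def]; simp
    have e1 : tmap tor g (algebraMap Λ _ c) = algebraMap Λ' _ (g c) := by simp [tmap]
    have e2 : tmap tor' g (algebraMap Λ _ c) = algebraMap Λ' _ (g c) := by simp [tmap]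
    rw [e, mono_eq_prod]
    simp only [map_mul, map_prod, map_pow, AlgHom.commutes, e1, e2, h1, h3, k1, k2]

end General

section Charts
variable {I τ ι : Type} [DecidableEq I] [Fintype I] [Fintype τ] [DecidableEq τ]
  (Λ : Type) [CommRing Λ] (j : I)

omit [DecidableEq I] [Fintype I] [Fintype τ] [DecidableEq τ] in
lemma gshift_zero {A : Type} [CommRing A] (x : Var I τ → A) (y : Var I τ) :
    gshift 0 0 x y = x y := by
  rcases y with ⟨v, t⟩ | t
  · fin_cases t <;> simp [gshift]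
  · rfl

omit [DecidableEq I] [Fintype I] [Fintype τ] [DecidableEq τ] in
lemma tor_cases {y : Var I τ} (h : torV y = true) : ∃ v, y = Sum.inl (v, 0) := by
  rcases y with ⟨v, t⟩ | t
  · exact ⟨v, by simpa [torV] using h⟩
  · simp [torV] at h

lemma rhoZ_tX (x : Var I τ) : rhoZ Λ τ j (tX torV Λ x) =
    if h : x ≠ Sum.inl (j, 1) ∧ x ≠ Sum.inl (j, 2) then tX (torS τ j) Λ ⟨x, h⟩ else 0 :=
  tlift_tX _ _ _ _ _

lemma rhoZ_tXi (v : I) :
    rhoZ Λ τ j (tXi torV Λ (Sum.inl (v, 0))) = tXi (torS τ j) Λ (cvS τ j v) :=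
  (tlift_tXi _ _ _ _ _ (by simp [torV])).trans (dif_pos (cvS τ j v).2)

lemma inS_tX (x : Sl τ j) : inS Λ τ j (tX _ Λ x) = tX torV Λ x.1 := tlift_tX _ _ _ _ _

lemma rho_sj (z : Zr Λ I τ) : rhoZ Λ τ j (sj Λ τ j z) = rhoZ Λ τ j z := by
  have : (rhoZ Λ τ j).comp (sj Λ τ j) = rhoZ Λ τ j := by
    apply tor_ext
    intro y
    have h1 := map_gshift (rhoZ Λ τ j : Zr Λ I τ →+* Tor Λ (torS τ j)) (nZ Λ τ j) (nZ' Λ τ j)
      (tX torV Λ) y
    simp only [RingHom.coe_coe] at h1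
    have h2 : rhoZ Λ τ j (nZ Λ τ j) = 0 := by rw [nZ, map_mul, rhoZ_tX, dif_neg (by simp), zero_mul]
    have h3 : rhoZ Λ τ j (nZ' Λ τ j) = 0 := by
      rw [nZ', map_mul, rhoZ_tX, dif_neg (by simp), zero_mul]
    rw [AlgHom.comp_apply, sj_tX, h1, h2, h3, gshift_zero]
  exact DFunLike.congr_fun this z

lemma rho_inS (z : Tor Λ (torS τ j)) : rhoZ Λ τ j (inS Λ τ j z) = z := by
  have : (rhoZ Λ τ j).comp (inS Λ τ j) = AlgHom.id Λ _ := by
    apply tor_ext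
    intro y
    rw [AlgHom.comp_apply, inS_tX, rhoZ_tX, dif_pos y.2, AlgHom.id_apply]
  exact DFunLike.congr_fun this z

lemma sj_inS (z : Zr Λ I τ) : sj Λ τ j (inS Λ τ j (rhoZ Λ τ j z)) = sj Λ τ j z := by
  have : (sj Λ τ j).comp ((inS Λ τ j).comp (rhoZ Λ τ j)) = sj Λ τ j := by
    apply tor_ext
    intro y
    have h := tX_mul_tXi (Λ := Λ) (torV : Var I τ → Bool) (Sum.inl (j, 0)) (by simp [torV])
    rw [AlgHom.comp_apply, AlgHom.comp_apply, rhoZ_tX]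
    split_ifs with k
    · rw [inS_tX]
    · rw [map_zero, map_zero, sj_tX]
      rcases not_and_or.1 k with k | k <;> rw [not_not.1 k]
      · simp only [gshift, Fin.reduceEq, if_false, if_true, nZ']
        linear_combination tX torV Λ (Sum.inl (j, 1) : Var I τ) * h
      · simp only [gshift, Fin.reduceEq, if_false, if_true, nZ]
        linear_combination tX torV Λ (Sum.inl (j, 2) : Var I τ) * h
  exact DFunLike.congr_fun this z

variable (M : Model I τ ι)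

lemma sj_mem (s1 : S1) {J : Finset I} (hj : j ∈ J) {w : Gam I} {z : Zr Λ I τ}
    (hz : z ∈ M.Zp Λ J w) : sj Λ τ j z ∈ M.Zp Λ J w := by
  have X := fun y => Tp_tX (Λ := Λ) (tor := torV) (cv := fun v => Sum.inl (v, 0)) (wt := M.wtv)
    (J := J) s1 y
  have c : tXi torV Λ (Sum.inl (j, 0)) ∈
      Tp torV (fun v => Sum.inl (v, 0)) M.wtv Λ J (-M.wtv (Sum.inl (j, 0))) :=
    tXi_mem fun v hv k => hv (by rwa [show v = j by simpa using k])
  have n1 : nZ Λ τ j ∈ Tp torV (fun v => Sum.inl (v, 0)) M.wtv Λ J (0, 0, 2, 0) :=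
    Tp_mul s1 (X _) c (by simp [Model.wtv])
  have n2 : nZ' Λ τ j ∈ Tp torV (fun v => Sum.inl (v, 0)) M.wtv Λ J (0, 0, 0, 2) :=
    Tp_mul s1 (X _) c (by simp [Model.wtv])
  refine Tp_map (cv := fun v => Sum.inl (v, 0)) (cv' := fun v => Sum.inl (v, 0)) (wt := M.wtv)
    (wt' := M.wtv) s1 (sj Λ τ j) (fun y => ?_) (fun y hy k => ?_) hz
  · rw [sj_tX]
    rcases y with ⟨v, t⟩ | t
    · obtain rfl | rfl | rfl | rfl : t = 0 ∨ t = 1 ∨ t = 2 ∨ t = 3 := by omega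
      all_goals simp only [gshift, Fin.reduceEq, if_false, if_true]
      · exact X _
      · exact sub_mem (X _) (Tp_mul s1 n2 (X _) (by simp [Model.wtv]))
      · exact sub_mem (X _) (Tp_mul s1 n1 (X _) (by simp [Model.wtv]))
      · exact sub_mem (add_mem (add_mem (X _) (Tp_mul s1 n1 (X _) (by simp [Model.wtv])))
          (Tp_mul s1 n2 (X _) (by simp [Model.wtv])))
          (Tp_mul s1 (Tp_mul s1 n1 n2 rfl) (X _) (by simp [Model.wtv]))
    · exact X _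
  · obtain ⟨v, rfl⟩ := tor_cases hy
    rw [sj_tXi]
    exact tXi_mem k

lemma rho_mem (s1 : S1) {J : Finset I} {w : Gam I} {z : Zr Λ I τ} (hz : z ∈ M.Zp Λ J w) :
    rhoZ Λ τ j z ∈ Tp (torS τ j) (cvS τ j) (fun y => M.wtv y.1) Λ J w := by
  refine Tp_map (cv := fun v => Sum.inl (v, 0)) (wt := M.wtv) s1 (rhoZ Λ τ j) (fun y => ?_)
    (fun y hy k => ?_) hz
  · rw [rhoZ_tX]
    split_ifs with h
    · exact Tp_tX s1 (⟨y, h⟩ : Sl τ j)
    · exact zero_mem _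
  · obtain ⟨v, rfl⟩ := tor_cases hy
    rw [rhoZ_tXi]
    exact tXi_mem (i := cvS τ j v) fun u hu l => k u hu (congrArg Subtype.val l)

lemma inS_mem (s1 : S1) {J : Finset I} {w : Gam I} {z : Tor Λ (torS τ j)}
    (hz : z ∈ Tp (torS τ j) (cvS τ j) (fun y => M.wtv y.1) Λ J w) :
    inS Λ τ j z ∈ M.Zp Λ J w := by
  refine Tp_map (cv' := fun v => Sum.inl (v, 0)) (wt' := M.wtv) s1 (inS Λ τ j) (fun y => ?_)
    (fun y hy k => ?_) hz
  · rw [inS_tX]
    exact Tp_tX s1 y.1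
  · rw [show inS Λ τ j (tXi _ Λ y) = tXi torV Λ y.1 from tlift_tXi _ _ _ _ _ hy]
    exact tXi_mem fun u hu l => k u hu (Subtype.ext l)

lemma rho_f (i : ι) : rhoZ Λ τ j (ofPoly torV Λ (M.f i)) = ofPoly (torS τ j) Λ (M.fS j i) := by
  unfold Model.fS
  induction M.f i using MvPolynomial.induction_on with
  | C a => simp
  | add p q hp hq => simp only [map_add, hp, hq]
  | mul_X p x hp =>
    simp only [map_mul, hp, MvPolynomial.aeval_X]
    refine congrArg _ ?_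
    rw [ofPoly, MvPolynomial.eval₂Hom_X', rhoZ_tX]
    split_ifs
    · rw [ofPoly, MvPolynomial.eval₂Hom_X']
    · rw [map_zero]

open MvPolynomial in
lemma fS_hom (h : M.Good) (i : ι) :
    ∀ m ∈ (M.fS j i).support, ∑ y, (m y : ℤ) • M.wtv y.1 = M.om i := by
  have k : IsWeightedHomogeneous (fun y : Sl τ j => M.wtv y.1) (M.fS j i) (M.om i) := by
    rw [Model.fS, aeval_def, eval₂_eq']
    refine IsWeightedHomogeneous.sum _ _ _ fun d hd => ?_
    rw [← h.hom i d hd, Model.wt, ← zero_add (∑ _, _)]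
    refine (isWeightedHomogeneous_C _ _).mul (IsWeightedHomogeneous.prod _ _ _ fun x _ => ?_)
    rw [natCast_zsmul]
    refine IsWeightedHomogeneous.pow ?_ _
    split_ifs with l
    · exact isWeightedHomogeneous_X ℤ (fun y : Sl τ j => M.wtv y.1) ⟨x, l⟩
    · exact isWeightedHomogeneous_zero ℤ _ _
  intro m hm
  rw [← k (mem_support_iff.1 hm), Finsupp.weight_apply, Finsupp.sum_fintype _ _ (by simp)]
  simp only [natCast_zsmul]

lemma fin_wt (w : Gam I) :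
    {u : Sl τ j → ℤ | u ∈ Mon (torS τ j) ∧ ∑ y, u y • M.wtv y.1 = w}.Finite := by
  let φ : Gam I →+ ℤ :=
    { toFun := fun g => 2 * ∑ v, g.1 v + g.2.2.1 + g.2.2.2
      map_zero' := by simp
      map_add' := fun a b => by simp [Finset.sum_add_distrib]; ring }
  have φ1 : ∀ y : Var I τ, torV y = false → 1 ≤ φ (M.wtv y) := by
    rintro (⟨v, t⟩ | t) hy
    · fin_cases t <;> simp [φ, Model.wtv, torV] at hy ⊢
    · simp [φ, Model.wtv]
  have φ0 : ∀ v, φ (M.wtv (Sum.inl (v, 0))) = 0 := fun v => by simp [φ, Model.wtv]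
  have k1 : ∀ (y : Var I τ) v, 0 ≤ (M.wtv y).1 v ∧ (M.wtv y).1 v ≤ 1 := by
    rintro (⟨v, t⟩ | t) u <;> simp only [Model.wtv, Pi.single_apply] <;> split_ifs <;> simp
  refine (Set.Finite.pi' (t := fun _ => Set.Icc 0 (φ w) ∪ ⋃ v, Set.Icc (w.1 v - φ w) (w.1 v))
    fun _ => (Set.finite_Icc _ _).union (Set.finite_iUnion fun v => Set.finite_Icc _ _)).subset ?_
  rintro u ⟨hu, rfl⟩ y
  have e : φ (∑ y, u y • M.wtv y.1) = ∑ y, u y * φ (M.wtv y.1) := by
    simp only [map_sum, map_zsmul, smul_eq_mul]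
  have p0 : ∀ x, 0 ≤ u x * φ (M.wtv x.1) := fun x => by
    cases ht : torV x.1
    · exact mul_nonneg (hu x ht) (by linarith [φ1 _ ht])
    · obtain ⟨v, l⟩ := tor_cases ht
      rw [l, φ0, mul_zero]
  rw [e]
  cases ht : torV y.1
  · exact Or.inl ⟨hu y ht, (le_mul_of_one_le_right (hu y ht) (φ1 _ ht)).trans
      (Finset.single_le_sum (fun x _ => p0 x) (Finset.mem_univ y))⟩
  · obtain ⟨v, l⟩ := tor_cases ht
    refine Or.inr (Set.mem_iUnion.2 ⟨v, ?_⟩)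
    have e2 : (∑ y, u y • M.wtv y.1).1 v =
        u y + ∑ x ∈ Finset.univ.erase y, u x * (M.wtv x.1).1 v := by
      rw [Prod.fst_sum, Finset.sum_apply, ← Finset.add_sum_erase _ _ (Finset.mem_univ y)]
      simp [l, Model.wtv]
    have p1 : ∀ x ∈ Finset.univ.erase y, 0 ≤ u x * (M.wtv x.1).1 v ∧
        u x * (M.wtv x.1).1 v ≤ u x * φ (M.wtv x.1) := fun x hx => by
      cases hx' : torV x.1
      · exact ⟨mul_nonneg (hu x hx') (k1 _ v).1,
          mul_le_mul_of_nonneg_left ((k1 _ v).2.trans (φ1 _ hx')) (hu x hx')⟩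
      · obtain ⟨v', l'⟩ := tor_cases hx'
        have n : v ≠ v' := fun k => (Finset.mem_erase.1 hx).1 (Subtype.ext (by rw [l, l', k]))
        rw [l', φ0]
        simp [Model.wtv, n]
    have p2 := Finset.sum_nonneg fun x hx => (p1 x hx).1
    have p3 := (Finset.sum_le_sum fun x hx => (p1 x hx).2).trans
      (Finset.sum_le_sum_of_subset_of_nonneg (Finset.erase_subset y _) fun x _ _ => p0 x)
    rw [e2]
    constructor <;> linarith

lemma sum_wt : ∑ y : Sl τ j, M.wtv y.1 =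
    M.wt (fun _ => 1) - (0, 0, 2, 2) - (2 : ℕ) • M.wtv (Sum.inl (j, 0)) := by
  have h1 := Finset.sum_filter_add_sum_filter_not Finset.univ
    (fun x : Var I τ => x ≠ Sum.inl (j, 1) ∧ x ≠ Sum.inl (j, 2)) M.wtv
  have h2 : (Finset.univ.filter fun x : Var I τ => ¬ (x ≠ Sum.inl (j, 1) ∧ x ≠ Sum.inl (j, 2))) =
      {Sum.inl (j, 1), Sum.inl (j, 2)} := by
    ext x
    simp only [Finset.mem_filter, Finset.mem_univ, true_and, Finset.mem_insert,
      Finset.mem_singleton]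
    tauto
  rw [h2, Finset.sum_pair (by simp), Finset.sum_subtype _
    (p := fun x : Var I τ => x ≠ Sum.inl (j, 1) ∧ x ≠ Sum.inl (j, 2)) (by simp)] at h1
  have h3 : M.wtv (Sum.inl (j, 1)) + M.wtv (Sum.inl (j, 2)) =
      (0, 0, 2, 2) + (2 : ℕ) • M.wtv (Sum.inl (j, 0)) := by
    simp [Model.wtv, two_smul]
  simp only [Model.wt, one_smul]
  rw [← h1, h3]
  abel

end Charts

theorem g1 (s1 : S1) : G1 := by
  intro I τ ι _ _ _ _ _ _ M h Λ _ j
  have k2 : ∀ a, kapS Λ τ j (rhoA Λ τ j a) = a := fun a =>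
    Subtype.ext ((sj_inS Λ j a.1).trans ((mem_Ainv Λ _).1 a.2 j))
  refine ⟨fun z => (rho_sj Λ j _).trans (rho_inS Λ j z), k2,
    fun J w z hj hz => sj_mem Λ j M s1 hj hz, fun J w a hj => ⟨fun ha => rho_mem Λ j M s1 ha,
      fun ha => k2 a ▸ sj_mem Λ j M s1 hj (inS_mem Λ j M s1 ha)⟩, rho_f Λ j M,
    fun i J => ofPoly_mem (cv := fun v => Sum.inl (v, 0)) (wt := M.wtv) s1 (h.hom i),
    fS_hom j M h, fin_wt j M, fun Λ' _ g z => ?_, sum_wt j M⟩
  obtain ⟨k1, k3, -⟩ := (s1 Λ (Var I τ) torV).2.2.2.2.2.2.2.1 Λ' g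
  obtain ⟨l1, l3, -⟩ := (s1 Λ (Sl τ j) (torS τ j)).2.2.2.2.2.2.2.1 Λ' g
  refine ⟨tmap_comm s1 g _ _ (fun x => ?_) (fun x hx => ?_) z,
    tmap_comm s1 g _ _ (fun x => ?_) (fun x hx => ?_) z⟩
  · rw [sj_tX, sj_tX, map_gshift]
    simp only [nZ, nZ', map_mul, k1, k3]
  · obtain ⟨v, rfl⟩ := tor_cases hx
    rw [sj_tXi, sj_tXi, k3]
  · rw [rhoZ_tX, rhoZ_tX]
    split_ifs
    · exact l1 _
    · exact map_zero _
  · obtain ⟨v, rfl⟩ := tor_cases hx
    rw [rhoZ_tXi, rhoZ_tXi, l3]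

end Pool.Agent.MP_ea150c_mp.H39
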